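import Pool.Agent.W2helper66.XP.Stm

/-!
Piece INV of project XP (helper66): a Hamiltonian path on an odd number of points gives two
involutions.
-/

set_option autoImplicit false

namespace Pool.Agent.W2helper49.XP

open Pool.Agent.W2helper66.XP

/-- exchanges `2 i + 1` and `2 i + 2` -/
def s0 (i : ℕ) : ℕ := if i = 0 then 0 else if i % 2 = 1 then i + 1 else i - 1

/-- exchanges `2 i` and `2 i + 1`, and fixes `n - 1` -/
def s1 (n i : ℕ) : ℕ := if i + 1 = n then i else if i % 2 = 0 then i + 1 else i - 1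

lemma s0_lt {m n i : ℕ} (hm : n = 2 * m + 1) (hi : i < n) : s0 i < n := by
  unfold s0
  split_ifs <;> omega

lemma s1_lt {m n i : ℕ} (hm : n = 2 * m + 1) (hi : i < n) : s1 n i < n := by
  unfold s1
  split_ifs <;> omega

lemma s0_s0 (i : ℕ) : s0 (s0 i) = i := by
  unfold s0
  by_cases h0 : i = 0
  · simp [h0]
  · by_cases h1 : i % 2 = 1
    · rw [if_neg h0, if_pos h1, if_neg (by omega), if_neg (by omega)]
      omega
    · rw [if_neg h0, if_neg h1, if_neg (by omega), if_pos (by omega)]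
      omega

lemma s1_s1 {m n i : ℕ} (hm : n = 2 * m + 1) (hi : i < n) : s1 n (s1 n i) = i := by
  unfold s1
  split_ifs <;> omega

lemma s0_fix (i : ℕ) : s0 i = i ↔ i = 0 := by
  unfold s0
  split_ifs <;> omega

lemma s1_fix {n i : ℕ} (hi : i < n) : s1 n i = i ↔ i = n - 1 := by
  unfold s1
  split_ifs <;> omega

lemma s0_adj {i : ℕ} (h : s0 i ≠ i) : s0 i = i + 1 ∨ s0 i + 1 = i := by
  unfold s0 at h ⊢
  split_ifs at h ⊢ <;> omega

lemma s1_adj {n i : ℕ} (h : s1 n i ≠ i) : s1 n i = i + 1 ∨ s1 n i + 1 = i := by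
  unfold s1 at h ⊢
  split_ifs at h ⊢ <;> omega

lemma s0_ne_s1 {m n i : ℕ} (hm : n = 2 * m + 1) (h3 : 3 ≤ n) (hi : i < n) : s0 i ≠ s1 n i := by
  unfold s0 s1
  split_ifs <;> omega

theorem inv : INV := by
  intro n hn h3 β hβ
  have : NeZero n := ⟨by omega⟩
  obtain ⟨m, hm⟩ := hn
  have hinj : Function.Injective (fun i : Fin n => β i) := fun i j h => Fin.ext (hβ i j i.2 j.2 h)
  have hbij : Function.Bijective (fun i : Fin n => β i) := by
    rw [Fintype.bijective_iff_injective_and_card]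
    exact ⟨hinj, by rw [Fintype.card_fin, ZMod.card]⟩
  choose ι hι using fun v => hbij.2 v
  obtain ⟨J, hJ, hJβ, hβJ⟩ : ∃ J : ZMod n → ℕ, (∀ v, J v < n) ∧ (∀ v, β (J v) = v) ∧
      ∀ i, i < n → J (β i) = i :=
    ⟨fun v => (ι v : ℕ), fun v => (ι v).2, hι, fun i h => hβ _ _ (ι (β i)).2 h (hι (β i))⟩
  -- the involution of a map of indices
  have key : ∀ s : ℕ → ℕ, (∀ i, i < n → s i < n) → (∀ i, i < n → s (s i) = i) →
      (∀ v, β (s (J (β (s (J v))))) = v) ∧ (∀ v, β (s (J v)) = v ↔ s (J v) = J v) := by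
    intro s h1 h2
    refine ⟨fun v => ?_, fun v => ⟨fun h => ?_, fun h => ?_⟩⟩
    · rw [hβJ _ (h1 _ (hJ v)), h2 _ (hJ v), hJβ]
    · exact hβ _ _ (h1 _ (hJ v)) (hJ v) (h.trans (hJβ v).symm)
    · rw [h, hJβ]
  have k0 := key s0 (fun i hi => s0_lt hm hi) (fun i _ => s0_s0 i)
  have k1 := key (s1 n) (fun i hi => s1_lt hm hi) (fun i hi => s1_s1 hm hi)
  have hadj : ∀ (s : ℕ → ℕ), (∀ i, i < n → s i < n) → (∀ i, s i ≠ i → s i = i + 1 ∨ s i + 1 = i) →
      ∀ v, s (J v) ≠ J v → ∃ j, j + 1 < n ∧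
      ((v = β j ∧ β (s (J v)) = β (j + 1)) ∨ (v = β (j + 1) ∧ β (s (J v)) = β j)) := by
    intro s h1 h2 v h
    rcases h2 _ h with e | e
    · refine ⟨J v, ?_, Or.inl ⟨(hJβ v).symm, by rw [e]⟩⟩
      have := h1 _ (hJ v)
      omega
    · refine ⟨s (J v), ?_, Or.inr ⟨?_, rfl⟩⟩
      · have := hJ v
        omega
      · rw [e, hJβ]
  have e0 : ∀ v, J v = 0 ↔ v = β 0 := fun v =>
    ⟨fun h => by rw [← h, hJβ], fun h => by rw [h, hβJ 0 (by omega)]⟩
  have e1 : ∀ v, J v = n - 1 ↔ v = β (n - 1) := fun v =>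
    ⟨fun h => by rw [← h, hJβ], fun h => by rw [h, hβJ (n - 1) (by omega)]⟩
  refine ⟨fun i v => if i = 0 then β (s0 (J v)) else β (s1 n (J v)), ?_, ?_, ?_, ?_, ?_⟩
  · intro i v
    by_cases hi : i = 0
    · simp only [hi, if_true]
      exact k0.1 v
    · simp only [hi, if_false]
      exact k1.1 v
  · intro v
    simp only [if_true]
    rw [k0.2 v, s0_fix, e0]
  · intro v
    simp only [one_ne_zero, if_false]
    rw [k1.2 v, s1_fix (hJ v), e1]
  · intro i v h
    by_cases hi : i = 0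
    · simp only [hi, if_true] at h ⊢
      exact hadj s0 (fun i hi => s0_lt hm hi) (fun i h => s0_adj h) v (fun e => h ((k0.2 v).2 e))
    · simp only [hi, if_false] at h ⊢
      exact hadj (s1 n) (fun i hi => s1_lt hm hi) (fun i h => s1_adj h) v
        (fun e => h ((k1.2 v).2 e))
  · intro v
    simp only [if_true, one_ne_zero, if_false]
    intro h
    exact s0_ne_s1 hm h3 (hJ v) (hβ _ _ (s0_lt hm (hJ v)) (s1_lt hm (hJ v)) h)

end Pool.Agent.W2helper49.XP
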